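import Pool.Agent.Lib.KR39.CL
import Pool.Agent.Lib.KR91.Mat

/-! The results of the section on the twisted family, in terms of the quartic form. -/

open scoped Topology ComplexOrder Matrix
open Set MeasureTheory Filter

noncomputable section

namespace Pool.Agent.Lib.K39

open Pool.Agent.Lib.SV (E)
open Pool.Agent.Lib.HS32 Pool.Agent.Lib.HS76 Pool.Agent.Lib.GH
open Pool.Agent.Lib.KR91 (sf dq)

variable {n : ℕ}

/-- The quartic form is non-negative. -/
abbrev Dn (M : Mf n) (H : M.Fam (Mat n)) (a be : ℝ) : Prop := M.All fun e z => ∀ X,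
  0 ≤ dq (sf (H e z)) (sf (-M.ric H e z)) (rm (H e) z) a be X

/-- The function that dominates the gradient term and the curvature term. -/
def yy (M : Mf n) (G H : M.Fam (Mat n)) (lam : ℝ) (u : M.X → ℝ) (x : M.X) : ℝ :=
  M.lap G (fun x => Real.log (M.tr G H x) - lam / (1 + lam) * u x) x + (1 + lam / (1 + lam) * n)

variable {M : Mf n} {G H B : M.Fam (Mat n)} {lam ε a be : ℝ} {u : M.X → ℝ}

theorem of_dq {A T η : Mat n} {R : E n → E n → E n → E n → ℂ} {c : ℝ} (hb : 0 < be) {X : E n}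
    (h : c * nq T X ^ 2 ≤ dq (sf A) (sf η) R a be X) :
    (R X X X X).re + c / be * nq T X ^ 2 ≤ 2 * (a / (2 * be)) * (nq η X * nq A X) := by
  have h1 : c * nq T X ^ 2 ≤ a * nq η X * nq A X - be * (R X X X X).re := h
  refine le_of_mul_le_mul_left ?_ hb
  have e1 : be * ((R X X X X).re + c / be * nq T X ^ 2) =
      be * (R X X X X).re + c * nq T X ^ 2 := by field_simp
  have e2 : be * (2 * (a / (2 * be)) * (nq η X * nq A X)) = a * nq η X * nq A X := by field_simp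
  linarith

theorem tw_of_dq (hb : 0 < be) (h : Dn M H a be) : Tw M H (a / (2 * be)) := fun e he z hz v => by
  have h1 := of_dq (T := 0) (c := 0) hb (X := v) (by rw [zero_mul]; exact h e he z hz v)
  rwa [zero_div, zero_mul, add_zero] at h1

/-- Solvability of the twisted equation. -/
theorem solv [M.Cpt] (hA : HS.St_AUBIN) (hn : 0 < n) (hH : M.Kae H) (ha : 0 < a) (hb : 0 < be)
    (h : Dn M H a be) (hε : 0 < ε) : ∃ u, M.SolB H ((a / (2 * be)) • -M.ric H) ε u :=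
  exists_sol hA hn hH (by positivity) (tw_of_dq hb h) ((clo_eta hH.toMet).smul _) (Mf.Le.refl _) hε

/-- The twisted inequality of Royden. -/
theorem qp_dq (hG : M.Met G) (hH : M.Kae H) (hb : 0 < be) {e : M.Ch} (he : e ∈ M.C) {z : E n}
    (hz : z ∈ e.target) {T : Mat n} (hT : T.IsHermitian) {c : ℝ} (hc : 0 ≤ c)
    (hD : ∀ X, c * nq T X ^ 2 ≤ dq (sf (H e z)) (sf (-M.ric H e z)) (rm (H e) z) a be X) :
    c / (2 * be) * ((G e z)⁻¹ * T).trace.re ^ 2 ≤ qp M G H (a / (2 * be)) e z := by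
  have h := qp_ge hG hH he hz hT (div_nonneg hc hb.le) fun v => of_dq hb (hD v)
  rwa [div_div, mul_comm be] at h

theorem sm_yy (hn : 0 < n) (hG : M.Kae G) (hH : M.Kae H) (hu : M.Sm u) :
    M.Sm (yy M G H lam u) := by
  have h := sm_y hn hG hH hu (lam / (1 + lam))
  exact ((mLAP n M _ _ h h).2.2 G hG.toMet).1.add (Mf.sm_const _)

/-- The two terms are dominated by `yy`. -/
theorem le_yy (hn : 0 < n) (hH : M.Kae H) (hl : 0 ≤ lam) (hw : Tw M H lam) (hε : 0 ≤ ε)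
    (hB : M.Le (lam • -M.ric H) B) (hu : M.SolB H B ε u) : M.All fun e z =>
    0 ≤ yy M (M.gB H B ε u) H lam u (e.symm z) ∧
    et M (M.gB H B ε u) H e z / M.tr (M.gB H B ε u) H (e.symm z) ≤
      yy M (M.gB H B ε u) H lam u (e.symm z) ∧
    qp M (M.gB H B ε u) H lam e z / M.tr (M.gB H B ε u) H (e.symm z) ≤
      yy M (M.gB H B ε u) H lam u (e.symm z) := fun e he z hz => by
  have h1 := clp hn hH hl hε hB hu e he z hz
  have h4 := (clg n M _ H hu.kae hH).2.1 hn (e.symm z)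
  have h2 := div_nonneg (et_nonneg hn hu.kae hH e he z hz) h4.le
  have h3 := div_nonneg (qp_nonneg hu.kae.toMet hH hw e he z hz) h4.le
  have h5 : 0 ≤ lam / (1 + lam) * (ε * M.tr (M.gB H B ε u) H (e.symm z)) := by positivity
  beta_reduce at h1 ⊢
  rw [add_div] at h1
  unfold yy
  exact ⟨by linarith, by linarith, by linarith⟩

theorem yy_nonneg (hn : 0 < n) (hH : M.Kae H) (hl : 0 ≤ lam) (hw : Tw M H lam) (hε : 0 ≤ ε)
    (hB : M.Le (lam • -M.ric H) B) (hu : M.SolB H B ε u) (x : M.X) :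
    0 ≤ yy M (M.gB H B ε u) H lam u x := by
  have h := (Mf.AllOn.ch (le_yy hn hH hl hw hε hB hu) x).1
  rwa [Mf.ch_symm] at h

/-- The lower bound for the Laplacian with a constant. -/
theorem clp_low (hn : 0 < n) (hH : M.Kae H) (hl : 0 ≤ lam) (hw : Tw M H lam) (hε : 0 ≤ ε)
    (hB : M.Le (lam • -M.ric H) B) (hu : M.SolB H B ε u) (x : M.X) :
    -(1 + lam / (1 + lam) * n) ≤ M.lap (M.gB H B ε u)
      (fun x => Real.log (M.tr (M.gB H B ε u) H x) - lam / (1 + lam) * u x) x := by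
  have h := yy_nonneg hn hH hl hw hε hB hu x
  unfold yy at h
  linarith

/-- A lower bound of the quartic form by a square is dominated by `yy`. -/
theorem sq_le_yy (hn : 0 < n) (hH : M.Kae H) (ha : 0 ≤ a) (hb : 0 < be) (h : Dn M H a be)
    (hε : 0 ≤ ε) (hB : M.Le ((a / (2 * be)) • -M.ric H) B) (hu : M.SolB H B ε u) {e : M.Ch}
    (he : e ∈ M.C) {z : E n} (hz : z ∈ e.target) {T : Mat n} (hT : T.IsHermitian) {c : ℝ}
    (hc : 0 ≤ c)
    (hD : ∀ X, c * nq T X ^ 2 ≤ dq (sf (H e z)) (sf (-M.ric H e z)) (rm (H e) z) a be X) :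
    c / (2 * be) * ((M.gB H B ε u e z)⁻¹ * T).trace.re ^ 2 ≤
      M.tr (M.gB H B ε u) H (e.symm z) * yy M (M.gB H B ε u) H (a / (2 * be)) u (e.symm z) := by
  have h1 := (le_yy hn hH (by positivity) (tw_of_dq hb h) hε hB hu e he z hz).2.2
  rw [div_le_iff₀' ((clg n M _ H hu.kae hH).2.1 hn (e.symm z))] at h1
  exact (qp_dq hu.kae.toMet hH hb he hz hT hc hD).trans h1

/-- The case of the metric itself. -/
theorem tr_le_yy (hn : 0 < n) (hH : M.Kae H) (ha : 0 ≤ a) (hb : 0 < be) (h : Dn M H a be)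
    (hε : 0 ≤ ε) (hB : M.Le ((a / (2 * be)) • -M.ric H) B) (hu : M.SolB H B ε u) {c : M.X → ℝ}
    (hc : ∀ x, 0 ≤ c x) (hD : M.All fun e z => ∀ X, c (e.symm z) * nq (H e z) X ^ 2 ≤
      dq (sf (H e z)) (sf (-M.ric H e z)) (rm (H e) z) a be X) (x : M.X) :
    c x / (2 * be) * M.tr (M.gB H B ε u) H x ≤ yy M (M.gB H B ε u) H (a / (2 * be)) u x := by
  have h1 := sq_le_yy hn hH ha hb h hε hB hu (Mf.ch_mem x) (Mf.ch_tgt x)
    (Mf.AllOn.ch hH.herm x) (hc _) (Mf.AllOn.ch hD x)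
  rw [Mf.ch_symm] at h1
  have h2 := (clg n M _ H hu.kae hH).2.1 hn x
  have h3 : c x / (2 * be) * M.tr (M.gB H B ε u) H x ^ 2 ≤ _ := h1
  refine le_of_mul_le_mul_left ?_ h2
  linarith

/-- Polynomial bounds for the solutions. -/
theorem bounds [M.Cpt] (hn : 0 < n) (hH : M.Kae H) (hl : 0 < lam) (hw : Tw M H lam)
    (hC : M.Clo B) (hB : M.Le (lam • -M.ric H) B) : ∃ (C : ℝ) (N : ℕ), 1 ≤ C ∧
    ∀ ε ∈ Ioc (0 : ℝ) 1, ∀ u, M.SolB H B ε u →
      (∀ x, M.tr (M.gB H B ε u) H x ≤ C * ε⁻¹ ^ N) ∧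
      M.Le H ((C * ε⁻¹ ^ N) • M.gB H B ε u) ∧ M.Le (M.gB H B ε u) ((C * ε⁻¹ ^ N) • H) ∧
      ∀ x, Real.exp (u x) ≤ C ∧ Real.exp (-u x) ≤ C * ε⁻¹ ^ N := by
  obtain ⟨C, C1, hS⟩ := schwarz hn hH hl hw hC hB one_pos
  obtain ⟨U, U1, hU⟩ := sup_u hH hC 1
  have p1 : 1 ≤ C ^ n := one_le_pow₀ C1
  have p2 : C ≤ C ^ n := le_self_pow₀ C1 hn.ne'
  refine ⟨U * C ^ n, (n + 1) * n, one_le_mul_of_one_le_of_one_le U1 p1, fun ε hε u hu => ?_⟩
  have e1 : 1 ≤ ε⁻¹ := (one_le_inv₀ hε.1).2 hε.2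
  obtain ⟨K, hK⟩ : ∃ K, K = C * ε⁻¹ ^ (n + 1) := ⟨_, rfl⟩
  have K1 : 1 ≤ K := hK ▸ one_le_mul_of_one_le_of_one_le C1 (one_le_pow₀ e1)
  have k1 : ∀ x, M.tr (M.gB H B ε u) H x ≤ K := fun x => by
    have := hS ε hε u hu x
    rwa [one_div, ← hK] at this
  have k2 : U * C ^ n * ε⁻¹ ^ ((n + 1) * n) = U * K ^ n := by
    rw [hK, mul_pow, pow_mul, mul_assoc]
  have k3 : K ≤ K ^ n := le_self_pow₀ K1 hn.ne'
  have k4 : K ^ n ≤ U * K ^ n := le_mul_of_one_le_left (by positivity) U1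
  have k5 : M.Le H (K • M.gB H B ε u) := fun e he z hz => by
    have h1 := k1 (e.symm z)
    rw [((mINV n M _ hu.kae.toMet).1 H hH.toTen).1 e he z hz] at h1
    exact le_tr_smul (hu.kae.pos e he z hz) (hH.pos e he z hz).posSemidef h1
  have K0 : 0 < K := by linarith
  rw [k2]
  refine ⟨fun x => by linarith [k1 x], k5.trans (hu.kae.toMet.le_smul (by linarith)),
    Mf.Le.trans (T := (U / K⁻¹ ^ (Fintype.card (Fin n) - 1)) • H) (fun e he z hz => ?_)
      (hH.toMet.le_smul ?_), fun x => ⟨(hU ε hε.2 u hu x).trans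
        (le_mul_of_one_le_right (by linarith) p1), ?_⟩⟩
  · have k6 := k5.smul (inv_pos.2 K0).le
    rw [smul_smul, inv_mul_cancel₀ K0.ne', one_smul] at k6
    refine le_of_det_le (hH.pos e he z hz) (hu.kae.herm e he z hz) (inv_pos.2 K0)
      (k6 e he z hz) ?_
    rw [G34.sol_det hH hu e he z hz]
    exact mul_le_mul_of_nonneg_right (hU ε hε.2 u hu _) (Mf.pd_det_re (hH.pos e he z hz)).le
  · rw [Fintype.card_fin, inv_pow, div_inv_eq_mul]
    exact mul_le_mul_of_nonneg_left (pow_le_pow_right₀ K1 (Nat.sub_le _ _)) (by linarith)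
  · exact (exp_neg_le hH hu x).trans ((pow_le_pow_left₀
      ((clg n M _ H hu.kae hH).2.1 hn x).le (k1 x) n).trans k4)

end Pool.Agent.Lib.K39
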