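import Pool.Agent.Lib.KR39.Roy
import Pool.Agent.Lib.GH.B_GSB
import Pool.Agent.Lib.GH.B_GKE
import Pool.Agent.Lib.HS.B_CLG
import Pool.Agent.Lib.RB.Nef

/-! The twisted inequality of Chern and Lu, the Schwarz lemma and the existence theorem. -/

open scoped Topology ComplexOrder Matrix
open Set MeasureTheory Filter

noncomputable section

namespace Pool.Agent.Lib.K39

open Pool.Agent.Lib.SV (E)
open Pool.Agent.Lib.HS32 Pool.Agent.Lib.HS32.Mf Pool.Agent.Lib.HS76 Pool.Agent.Lib.GH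

variable {n : ℕ}

/-- The twisted curvature condition. -/
def Tw (M : Mf n) (H : M.Fam (Mat n)) (lam : ℝ) : Prop := M.All fun e z => ∀ v,
  (rm (H e) z v v v v).re ≤ 2 * lam * (nq (-M.ric H e z) v * nq (H e z) v)

/-- The twisted curvature term. -/
def qp (M : Mf n) (G H : M.Fam (Mat n)) (lam : ℝ) (e : M.Ch) (z : E n) : ℝ :=
  (qq (G e) (H e) z).re + lam * (M.tr G H (e.symm z) * M.tr G (-M.ric H) (e.symm z) +
    M.ip G H (-M.ric H) (e.symm z))

/-- The reduced gradient term. -/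
def et (M : Mf n) (G H : M.Fam (Mat n)) (e : M.Ch) (z : E n) : ℝ :=
  (en (G e) (H e) (H e) z).re -
    M.gr G (M.tr G H) (M.tr G H) (e.symm z) / M.tr G H (e.symm z)

variable {M : Mf n} {G H B : M.Fam (Mat n)} {lam ε : ℝ} {u : M.X → ℝ}

theorem clg : HS.St_CLG := HS.st_CLG mINV mLAP mHES

theorem clo_eta (hH : M.Met H) : M.Clo (-M.ric H) := ((mHES n M).2.2.2.2.2.2.2.2.1 H hH).neg

/-- The twisted inequality of Royden in a chart. -/
theorem qp_ge (hG : M.Met G) (hH : M.Kae H) {e : M.Ch} (he : e ∈ M.C) {z : E n}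
    (hz : z ∈ e.target) {T : Mat n} (hT : T.IsHermitian) {c : ℝ} (hc : 0 ≤ c)
    (hD : ∀ v, (rm (H e) z v v v v).re + c * nq T v ^ 2 ≤
      2 * lam * (nq (-M.ric H e z) v * nq (H e z) v)) :
    c / 2 * ((G e z)⁻¹ * T).trace.re ^ 2 ≤ qp M G H lam e z := by
  have lH := HS68.met_loc hH.toMet he hz
  have kH := HS68.clo_kl hH.toClo he hz
  have hE := clo_eta hH.toMet
  have h := roy (N := fun k l => H e z * th (H e) k l z) (lH.mul_th_symm kH)
    (lH.mul_th_symm' kH) (η := -M.ric H e z) (H := H e z) (hE.herm e he z hz) hT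
    (al := 2 * lam) (be := 1) hc (fun v => by rw [one_mul]; exact hD v)
    (hG.pos e he z hz).inv.posSemidef
  have a : M.tr G H (e.symm z) = _ := ((mINV n M G hG).1 H hH.toTen).1 e he z hz
  have b : M.tr G (-M.ric H) (e.symm z) = _ := ((mINV n M G hG).1 _ hE.toTen).1 e he z hz
  have d : M.ip G H (-M.ric H) (e.symm z) = _ :=
    ((mINV n M G hG).2.2.1 H _ hH.toTen hE.toTen).1 e he z hz
  rw [qp, a, b, d, qq, Complex.neg_re]
  simp only [Pi.neg_apply, Matrix.mul_assoc] at h ⊢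
  linarith

theorem qp_nonneg (hG : M.Met G) (hH : M.Kae H) (hw : Tw M H lam) :
    M.All fun e z => 0 ≤ qp M G H lam e z := fun e he z hz => by
  have h := qp_ge (lam := lam) hG hH he hz (hH.herm e he z hz) le_rfl fun v => by
    rw [zero_mul, add_zero]; exact hw e he z hz v
  rwa [zero_div, zero_mul] at h

/-- The form with the trace of the metric. -/
theorem qp_ge_tr (hG : M.Met G) (hH : M.Kae H) {e : M.Ch} (he : e ∈ M.C) {z : E n}
    (hz : z ∈ e.target) {c : ℝ} (hc : 0 ≤ c)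
    (hD : ∀ v, (rm (H e) z v v v v).re + c * nq (H e z) v ^ 2 ≤
      2 * lam * (nq (-M.ric H e z) v * nq (H e z) v)) :
    c / 2 * M.tr G H (e.symm z) ^ 2 ≤ qp M G H lam e z := by
  have a : M.tr G H (e.symm z) = _ := ((mINV n M G hG).1 H hH.toTen).1 e he z hz
  rw [a]
  exact qp_ge hG hH he hz (hH.herm e he z hz) hc hD

theorem et_nonneg (hn : 0 < n) (hG : M.Kae G) (hH : M.Kae H) :
    M.All fun e z => 0 ≤ et M G H e z := fun e he z hz => by
  obtain ⟨-, hp, h3, -⟩ := clg n M G H hG hH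
  rw [et, sub_nonneg, div_le_iff₀' (hp hn _)]
  exact (h3 e he z hz).2.2

theorem sm_y (hn : 0 < n) (hG : M.Kae G) (hH : M.Kae H) (hu : M.Sm u) (mu : ℝ) :
    M.Sm fun x => Real.log (M.tr G H x) - mu * u x := by
  obtain ⟨hS, hp, -⟩ := clg n M G H hG hH
  exact (hS.log fun x => (hp hn x).ne').sub (hu.const_mul mu)

theorem lap_u (hu : M.SolB H B ε u) (x : M.X) : M.lap (M.gB H B ε u) u x =
    n - ε * M.tr (M.gB H B ε u) H x - M.tr (M.gB H B ε u) B x -
      M.tr (M.gB H B ε u) (-M.ric H) x := by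
  have h : M.tr (M.gB H B ε u) (ε • H + B - M.ric H + M.hs u) x = n := hu.kae.toMet.tr_self
  rw [tr_add, tr_sub, tr_add, tr_smul] at h
  rw [tr_neg, lap]
  linarith

/-- The twisted inequality of Chern and Lu. -/
theorem clp (hn : 0 < n) (hH : M.Kae H) (hl : 0 ≤ lam) (hε : 0 ≤ ε)
    (hB : M.Le (lam • -M.ric H) B) (hu : M.SolB H B ε u) : M.All fun e z =>
    (et M (M.gB H B ε u) H e z + qp M (M.gB H B ε u) H lam e z) /
        M.tr (M.gB H B ε u) H (e.symm z) +
      lam / (1 + lam) * (ε * M.tr (M.gB H B ε u) H (e.symm z)) - (1 + lam / (1 + lam) * n) ≤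
    M.lap (M.gB H B ε u)
      (fun x => Real.log (M.tr (M.gB H B ε u) H x) - lam / (1 + lam) * u x) (e.symm z) := by
  intro e he z hz
  have hr := G34.sol_ric hH hu
  have hlu := lap_u hu (e.symm z)
  have hG := hu.kae
  generalize M.gB H B ε u = G at *
  obtain ⟨hS, hp, h3, -⟩ := clg n M G H hG hH
  obtain ⟨a1, -, -⟩ := h3 e he z hz
  have hL := hS.log fun x => (hp hn x).ne'
  have hm := hu.sm.const_mul (lam / (1 + lam))
  have l1 := (((mLAP n M _ _ hL hm).2.2 G hG.toMet).2.2.1 (e.symm z) 0).2.2.1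
  have l2 := (((mLAP n M _ _ hu.sm hu.sm).2.2 G hG.toMet).2.2.1 (e.symm z)
    (lam / (1 + lam))).2.2.2.1
  have l3 := (((mLAP n M _ _ hS hS).2.2 G hG.toMet).2.2.2.1 Real.log
    (fun y => Real.contDiffAt_log.2 (hp hn y).ne') (e.symm z)).1
  rw [HS.CLG.deriv2_log, Real.deriv_log] at l3
  have i1 : M.ip G H (M.ric G) (e.symm z) = ε * M.ip G H H (e.symm z) + M.ip G H B (e.symm z) -
      M.tr G H (e.symm z) := by
    rw [ip_congr (G := G) (G' := G) (S := H) (S' := H) (T := M.ric G) (T' := ε • H + B - G)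
      (fun _ _ _ _ => rfl) (fun _ _ _ _ => rfl) hr, ip_sub, ip_add, ip_smul, hG.toMet.ip_self]
  have i2 := G34.ip_mono hG.toMet hH.toMet hB (e.symm z)
  rw [ip_smul] at i2
  have i3 := hG.toMet.tr_mono hB (e.symm z)
  rw [tr_smul] at i3
  have i4 := G34.ip_mono hG.toMet hH.toMet hH.toMet.nonneg (e.symm z)
  rw [← zero_smul ℝ H, ip_smul, zero_mul] at i4
  have hS0 := hp hn (e.symm z)
  rw [l1, l2, l3, hlu, a1, i1, et, qp]
  generalize M.tr G H (e.symm z) = S at *
  generalize M.gr G (M.tr G H) (M.tr G H) (e.symm z) = g at *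
  have h1 : (0 : ℝ) < 1 + lam := by linarith
  obtain ⟨mu, hmu⟩ : ∃ mu, mu = lam / (1 + lam) := ⟨_, rfl⟩
  have h2 : 0 ≤ mu := hmu ▸ div_nonneg hl h1.le
  have h4 : lam = mu + mu * lam := by rw [hmu]; field_simp
  rw [← hmu, ← sub_nonneg]
  generalize (en (G e) (H e) (H e) z).re = a at *
  generalize (qq (G e) (H e) z).re = q at *
  generalize M.ip G H H (e.symm z) = p1 at *
  generalize M.ip G H B (e.symm z) = p2 at *
  generalize M.ip G H (-M.ric H) (e.symm z) = p3 at *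
  generalize M.tr G B (e.symm z) = t2 at *
  generalize M.tr G (-M.ric H) (e.symm z) = t3 at *
  have e1 : S⁻¹ * (a + (ε * p1 + p2 - S) + q) + -(S ^ 2)⁻¹ * g - mu * (n - ε * S - t2 - t3) -
      ((a - g / S + (q + lam * (S * t3 + p3))) / S + mu * (ε * S) - (1 + mu * n)) =
      (ε * p1 + (p2 - lam * p3)) / S + mu * (t2 - lam * t3) + (mu + mu * lam - lam) * t3 := by
    field_simp
    ring
  rw [e1, ← h4, sub_self, zero_mul, add_zero]
  exact add_nonneg (div_nonneg (add_nonneg (mul_nonneg hε i4) (sub_nonneg.2 i2)) hS0.le)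
    (mul_nonneg h2 (sub_nonneg.2 i3))

/-- The same under the twisted curvature condition. -/
theorem clp_tw (hn : 0 < n) (hH : M.Kae H) (hl : 0 ≤ lam) (hw : Tw M H lam) (hε : 0 ≤ ε)
    (hB : M.Le (lam • -M.ric H) B) (hu : M.SolB H B ε u) (x : M.X) :
    lam / (1 + lam) * (ε * M.tr (M.gB H B ε u) H x) - (1 + lam / (1 + lam) * n) ≤
    M.lap (M.gB H B ε u)
      (fun x => Real.log (M.tr (M.gB H B ε u) H x) - lam / (1 + lam) * u x) x := by
  have h1 := AllOn.ch (clp hn hH hl hε hB hu) x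
  have h2 := AllOn.ch (et_nonneg hn hu.kae hH) x
  have h3 := AllOn.ch (qp_nonneg hu.kae.toMet hH hw) x
  have h4 := (clg n M _ H hu.kae hH).2.1 hn x
  rw [ch_symm] at h1
  linarith [div_nonneg (add_nonneg h2 h3) h4.le]

/-- Upper bound for the potential. -/
theorem sup_u [M.Cpt] (hH : M.Kae H) (hB : M.Clo B) (T : ℝ) : ∃ U : ℝ, 1 ≤ U ∧ ∀ ε ≤ T, ∀ u,
    M.SolB H B ε u → ∀ x, Real.exp (u x) ≤ U := by
  obtain ⟨c, hc, hr, -⟩ := (mBD n M H hH.toMet).1 _
    (hB.sub ((mHES n M).2.2.2.2.2.2.2.2.1 H hH.toMet)).toForm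
  refine ⟨max 1 ((T + c) ^ n), le_max_left _ _, fun ε hε u hu => ?_⟩
  have h1 : M.Le (ε • H + B - M.ric H) ((T + c) • H) := by
    have := (hH.toMet.le_smul hε).add hr
    rwa [← add_smul, ← add_sub_assoc] at this
  obtain ⟨y, hy⟩ := hu.sm.exists_max
  have h3 := ((((mLAP n M _ _ hu.sm hu.sm).2.2 _ hH.toMet).2.2.1 y 0).2.2.2.2.2.2.2.2.1
    (Eventually.of_forall hy)).2.2 _ (ch_mem y) (mem_ch y)
  have h4 := (AllOn.ch h1 y).add h3
  rw [← sub_eq_add_neg, sub_sub] at h4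
  have h6 := det_le_of_le (c := T + c) (hH.toMet.ev_pos y) (hu.kae.toMet.ev_pos y).posSemidef h4
  have h7 := AllOn.ch (G34.sol_det hH hu) y
  rw [ch_symm] at h7
  rw [Fintype.card_fin, ev, ev, h7] at h6
  exact fun x => ((Real.exp_le_exp.2 (hy x)).trans
    (le_of_mul_le_mul_right h6 (pd_det_re (hH.toMet.ev_pos y)))).trans (le_max_right _ _)

/-- Lower bound for the potential by the trace. -/
theorem exp_neg_le (hH : M.Kae H) (hu : M.SolB H B ε u) (x : M.X) :
    Real.exp (-u x) ≤ M.tr (M.gB H B ε u) H x ^ n := by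
  have h1 := det_le_of_le (hu.kae.toMet.ev_pos x) (hH.toMet.ev_pos x).posSemidef
    (le_tr_smul (hu.kae.toMet.ev_pos x) (hH.toMet.ev_pos x).posSemidef le_rfl)
  have h7 := AllOn.ch (G34.sol_det hH hu) x
  rw [ch_symm] at h7
  have h2 : (M.ev H x).det.re ≤
      M.tr (M.gB H B ε u) H x ^ n * (Real.exp (u x) * (M.ev H x).det.re) := by
    rw [Fintype.card_fin] at h1
    exact h1.trans_eq (congrArg _ h7)
  rw [Real.exp_neg, inv_le_iff_one_le_mul₀ (Real.exp_pos _)]
  refine le_of_mul_le_mul_right ?_ (pd_det_re (hH.toMet.ev_pos x))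
  linarith

/-- The Schwarz lemma. -/
theorem schwarz [M.Cpt] (hn : 0 < n) (hH : M.Kae H) (hl : 0 < lam) (hw : Tw M H lam)
    (hC : M.Clo B) (hB : M.Le (lam • -M.ric H) B) {T : ℝ} (hT : 0 < T) : ∃ C : ℝ, 1 ≤ C ∧
    ∀ ε ∈ Ioc 0 T, ∀ u, M.SolB H B ε u → ∀ x,
      M.tr (M.gB H B ε u) H x ≤ C * (T / ε) ^ (n + 1) := by
  obtain ⟨U, hU, hb⟩ := sup_u hH hC T
  have h1 : (0 : ℝ) < 1 + lam := by linarith
  obtain ⟨mu, hmu⟩ : ∃ mu, mu = lam / (1 + lam) := ⟨_, rfl⟩
  have m0 : 0 < mu := hmu ▸ div_pos hl h1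
  have m1 : mu ≤ 1 := by rw [hmu, div_le_one h1]; linarith
  obtain ⟨A, A1, hA⟩ : ∃ A : ℝ, 1 ≤ A ∧ (1 + mu * n) / (mu * T) ≤ A :=
    ⟨_, le_max_left _ _, le_max_right _ _⟩
  refine ⟨U * A ^ (n + 1), one_le_mul_of_one_le_of_one_le hU (one_le_pow₀ A1),
    fun ε hε u hu x => ?_⟩
  have hp := (clg n M _ H hu.kae hH).2.1 hn
  have hy := sm_y hn hu.kae hH hu.sm mu
  obtain ⟨y, hm⟩ := hy.exists_max
  have a1 := ((((mLAP n M _ _ hy hy).2.2 _ hu.kae.toMet).2.2.1 y 0).2.2.2.2.2.2.2.2.1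
    (Eventually.of_forall hm)).1
  have a2 := clp_tw hn hH hl.le hw hε.1.le hB hu y
  rw [← hmu] at a2
  have a3 := exp_neg_le hH hu y
  have a4 := hm x
  have a5 := hb ε hε.2 u hu x
  have hx := hp x
  have hy0 := hp y
  generalize M.tr (M.gB H B ε u) H x = S at *
  generalize M.tr (M.gB H B ε u) H y = S' at *
  have t1 : 1 ≤ T / ε := (one_le_div hε.1).2 hε.2
  obtain ⟨R, hR⟩ : ∃ R, R = A * (T / ε) := ⟨_, rfl⟩
  have R1 : 1 ≤ R := hR ▸ one_le_mul_of_one_le_of_one_le A1 t1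
  have b1 : S' ≤ R := by
    have e0 := hε.1
    have c1 : S' ≤ (1 + mu * n) / (mu * T) * (T / ε) := by
      rw [show (1 + mu * n) / (mu * T) * (T / ε) = (1 + mu * n) / (mu * ε) by field_simp,
        le_div_iff₀ (mul_pos m0 e0)]
      linarith
    exact c1.trans (hR ▸ mul_le_mul_of_nonneg_right hA (by linarith))
  have b2 : Real.log S' ≤ Real.log R := Real.log_le_log hy0 b1
  have b3 : -u y ≤ n * Real.log R := by
    rw [← Real.log_pow, Real.le_log_iff_exp_le (by positivity)]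
    exact a3.trans (pow_le_pow_left₀ hy0.le b1 n)
  have b4 : u x ≤ Real.log U := (Real.le_log_iff_exp_le (by linarith)).2 a5
  have b5 : 0 ≤ Real.log R := Real.log_nonneg R1
  have b6 : 0 ≤ Real.log U := Real.log_nonneg hU
  have b7 : 0 ≤ (n : ℝ) * Real.log R := by positivity
  rw [mul_assoc, ← mul_pow, ← hR, ← Real.log_le_log_iff hx (by positivity),
    Real.log_mul (by positivity) (by positivity), Real.log_pow]
  push_cast
  nlinarith [mul_le_mul_of_nonneg_left b3 m0.le, mul_le_mul_of_nonneg_left b4 m0.le,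
    mul_le_mul_of_nonneg_right m1 b6, mul_le_mul_of_nonneg_right m1 b7]

/-- The twisted equation is solvable for every positive parameter. -/
theorem exists_sol [M.Cpt] (hA : HS.St_AUBIN) (hn : 0 < n) (hH : M.Kae H) (hl : 0 < lam)
    (hw : Tw M H lam) (hC : M.Clo B) (hB : M.Le (lam • -M.ric H) B) (hε : 0 < ε) :
    ∃ u, M.SolB H B ε u := by
  have hr := (mHES n M).2.2.2.2.2.2.2.2.1 H hH.toMet
  obtain ⟨c, hc, hle, -⟩ := (mBD n M H hH.toMet).1 _ (hr.sub hC).toForm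
  have hT : 0 < c + 1 + ε := by linarith
  obtain ⟨C, C1, hS⟩ := schwarz hn hH hl hw hC hB hT
  obtain ⟨K, hK⟩ : ∃ K, K = C * ((c + 1 + ε) / ε) ^ (n + 1) := ⟨_, rfl⟩
  have K1 : 1 ≤ K := hK ▸ one_le_mul_of_one_le_of_one_le C1
    (one_le_pow₀ ((one_le_div hε).2 (by linarith)))
  obtain ⟨δ, hδ⟩ : ∃ δ, δ = 1 / (2 * K) := ⟨_, rfl⟩
  have d0 : 0 < δ := by rw [hδ]; positivity
  have d1 : δ * K = 1 / 2 := by rw [hδ]; field_simp
  have d2 : δ ≤ 1 := by nlinarith
  have sol : ∀ η w, M.Sm w → (M.All fun e z => (M.gB H B η w e z).PosDef) →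
      ∃ u, M.SolB H B η u := fun η w hw hp => by
    obtain ⟨u, u1, u2, u3⟩ := RB.solve hA hn hH.toMet (T := η • H + B) hw
      ⟨(((hH.toClo.smul η).add hC).sub hr).add ((mHES n M).1 _ hw), hp⟩
    exact ⟨u, u1, u2, u3⟩
  have key : ∀ k : ℕ, ∀ η : ℝ, ε ≤ η → c - k * δ < η → ∃ u, M.SolB H B η u := by
    intro k
    induction k with
    | zero =>
      intro η _ hη
      rw [Nat.cast_zero, zero_mul, sub_zero] at hη
      have h0 : M.Sm fun _ => (0 : ℝ) := sm_const 0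
      refine sol η _ h0 fun e he z hz => ?_
      have h4 : M.gB H B η (fun _ => 0) e z =
          (η - c) • H e z + ((c • H) e z - (M.ric H - B) e z) := by
        rw [G34.gB_app, ((mLAP n M _ _ h0 h0).1 0 e he z hz).1, sub_smul]
        simp only [Pi.sub_apply, Pi.smul_apply]
        abel
      beta_reduce
      rw [h4]
      exact (pd_rsmul (hH.pos e he z hz) (sub_pos.2 hη)).add_posSemidef (hle e he z hz)
    | succ k ih =>
      intro η h1 hη
      by_cases h2 : c - k * δ < η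
      · exact ih η h1 h2
      push_cast at hη
      have k0 : 0 ≤ (k : ℝ) * δ := by positivity
      obtain ⟨u, hu⟩ := ih (η + δ) (by linarith) (by linarith)
      refine sol η u hu.sm fun e he z hz => ?_
      have h4 : M.gB H B η u e z = M.gB H B (η + δ) u e z - δ • H e z := by
        rw [G34.gB_app, G34.gB_app, add_smul]
        abel
      have h5 := hS (η + δ) ⟨by linarith, by linarith⟩ u hu (e.symm z)
      have h6 : C * ((c + 1 + ε) / (η + δ)) ^ (n + 1) ≤ K := by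
        rw [hK]
        exact mul_le_mul_of_nonneg_left (pow_le_pow_left₀ (div_pos hT (by linarith)).le
          (div_le_div_of_nonneg_left hT.le hε (by linarith)) _) (by linarith)
      rw [((mINV n M _ hu.kae.toMet).1 H hH.toTen).1 e he z hz] at h5
      beta_reduce
      rw [h4]
      refine K66.pd_sub (hu.kae.pos e he z hz) (hH.pos e he z hz) d0 ?_
      linarith [mul_le_mul_of_nonneg_left (h5.trans h6) d0.le]
  obtain ⟨k, hk⟩ := exists_nat_gt (c / δ)
  rw [div_lt_iff₀ d0] at hk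
  exact key k ε le_rfl (by linarith)

end Pool.Agent.Lib.K39
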