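import Pool.Agent.Lib.HS76.Pt

/-! The inequality of Royden for a curvature tensor twisted by products of Hermitian forms. -/

open scoped ComplexOrder MatrixOrder
open Matrix Finset

namespace Pool.Agent.Lib.K39

open Pool.Agent.Lib.HS76

variable {n : Type*} [Fintype n]

/-- The symmetrised product of two forms. -/
noncomputable def sy (A B : Matrix n n ℂ) (k l i j : n) : ℂ :=
  (A l k * B j i + A j i * B l k + A j k * B l i + A l i * B j k) / 4

theorem sum4 (f : n → n → n → n → ℂ) :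
    ∑ k, ∑ l, ∑ i, ∑ j, f k l i j = ∑ q : n × n × n × n, f q.1 q.2.1 q.2.2.1 q.2.2.2 := by
  simp only [Fintype.sum_prod_type]

theorem q4_lin (R S T : n → n → n → n → ℂ) (a b c : ℂ) (x y v w : n → ℂ) :
    q4 (fun k l i j => a * R k l i j + b * S k l i j + c * T k l i j) x y v w =
      a * q4 R x y v w + b * q4 S x y v w + c * q4 T x y v w := by
  simp only [q4, sum4, mul_sum, ← sum_add_distrib]
  exact sum_congr rfl fun q _ => by ring

theorem q2_lin (R S T : n → n → n → n → ℂ) (a b c : ℂ) (A B : Matrix n n ℂ) :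
    q2 (fun k l i j => a * R k l i j + b * S k l i j + c * T k l i j) A B =
      a * q2 R A B + b * q2 S A B + c * q2 T A B := by
  simp only [q2, sum4, mul_sum, ← sum_add_distrib]
  exact sum_congr rfl fun q _ => by ring

theorem dot_eq (A : Matrix n n ℂ) (x y : n → ℂ) :
    star y ⬝ᵥ A *ᵥ x = ∑ k, ∑ l, x k * star (y l) * A l k := by
  simp only [dotProduct, mulVec, Pi.star_apply, mul_sum]
  rw [sum_comm]
  exact sum_congr rfl fun k _ => sum_congr rfl fun l _ => by ring

theorem q4_sy (A B : Matrix n n ℂ) (v : n → ℂ) :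
    q4 (sy A B) v v v v = (star v ⬝ᵥ A *ᵥ v) * (star v ⬝ᵥ B *ᵥ v) := by
  have e1 : ∀ A B : Matrix n n ℂ, ∑ k, ∑ l, ∑ i, ∑ j, v k * star (v l) * v i * star (v j) *
      (A l k * B j i) = (star v ⬝ᵥ A *ᵥ v) * (star v ⬝ᵥ B *ᵥ v) := fun A B => by
    rw [dot_eq, dot_eq, sum_mul]
    refine sum_congr rfl fun k _ => ?_
    rw [sum_mul]
    refine sum_congr rfl fun l _ => ?_
    rw [mul_sum]
    refine sum_congr rfl fun i _ => ?_
    rw [mul_sum]
    exact sum_congr rfl fun j _ => by ring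
  have e2 : ∀ A B : Matrix n n ℂ, ∑ k, ∑ l, ∑ i, ∑ j, v k * star (v l) * v i * star (v j) *
      (A j k * B l i) = (star v ⬝ᵥ A *ᵥ v) * (star v ⬝ᵥ B *ᵥ v) := fun A B => by
    rw [← e1 A B]
    refine sum_congr rfl fun k _ => ?_
    rw [sum_comm]
    conv_rhs => rw [sum_comm]
    refine sum_congr rfl fun i _ => ?_
    rw [sum_comm]
    exact sum_congr rfl fun j _ => sum_congr rfl fun l _ => by ring
  have e3 : q4 (sy A B) v v v v =
      (∑ k, ∑ l, ∑ i, ∑ j, v k * star (v l) * v i * star (v j) * (A l k * B j i) +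
      ∑ k, ∑ l, ∑ i, ∑ j, v k * star (v l) * v i * star (v j) * (B l k * A j i) +
      ∑ k, ∑ l, ∑ i, ∑ j, v k * star (v l) * v i * star (v j) * (A j k * B l i) +
      ∑ k, ∑ l, ∑ i, ∑ j, v k * star (v l) * v i * star (v j) * (B j k * A l i)) / 4 := by
    simp only [q4, sy, sum4, ← sum_add_distrib, sum_div]
    exact sum_congr rfl fun q _ => by ring
  rw [e3, e1, e1, e2, e2]
  ring

theorem q2_sy (A B X : Matrix n n ℂ) :
    q2 (sy A B) X X = ((X * A).trace * (X * B).trace + (X * A * X * B).trace) / 2 := by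
  have e1 : ∀ A B : Matrix n n ℂ, ∑ k, ∑ l, ∑ i, ∑ j, X k l * X i j * (A l k * B j i) =
      (X * A).trace * (X * B).trace := fun A B => by
    simp only [trace, diag_apply, Matrix.mul_apply]
    rw [sum_mul]
    refine sum_congr rfl fun k _ => ?_
    rw [sum_mul]
    refine sum_congr rfl fun l _ => ?_
    rw [mul_sum]
    refine sum_congr rfl fun i _ => ?_
    rw [mul_sum]
    exact sum_congr rfl fun j _ => by ring
  have e2 : ∀ A B : Matrix n n ℂ, ∑ k, ∑ l, ∑ i, ∑ j, X k l * X i j * (A j k * B l i) =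
      (X * B * X * A).trace := fun A B => by
    simp only [trace, diag_apply, Matrix.mul_apply, sum_mul]
    refine sum_congr rfl fun k _ => ?_
    rw [sum_comm]
    conv_rhs => rw [sum_comm]
    refine sum_congr rfl fun i _ => ?_
    rw [sum_comm]
    exact sum_congr rfl fun j _ => sum_congr rfl fun l _ => by ring
  have e3 : q2 (sy A B) X X =
      (∑ k, ∑ l, ∑ i, ∑ j, X k l * X i j * (A l k * B j i) +
      ∑ k, ∑ l, ∑ i, ∑ j, X k l * X i j * (B l k * A j i) +
      ∑ k, ∑ l, ∑ i, ∑ j, X k l * X i j * (A j k * B l i) +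
      ∑ k, ∑ l, ∑ i, ∑ j, X k l * X i j * (B j k * A l i)) / 4 := by
    simp only [q2, sy, sum4, ← sum_add_distrib, sum_div]
    exact sum_congr rfl fun q _ => by ring
  have e4 : (X * B * X * A).trace = (X * A * X * B).trace := by
    rw [Matrix.mul_assoc (X * B), trace_mul_comm, ← Matrix.mul_assoc]
  rw [e3, e1, e1, e2, e2, e4]
  ring

/-- The twisted inequality of Royden, complex form. -/
theorem roy_c {N : n → n → Matrix n n ℂ} (h13 : ∀ k l a b, N k l b a = N a l b k)
    (h24 : ∀ k l a b, N k l b a = N k b l a) {η H T : Matrix n n ℂ} {al be c : ℝ}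
    (hD : ∀ v : n → ℂ, be * (∑ k, ∑ l, v k * star (v l) * (star v ⬝ᵥ (N k l) *ᵥ v)).re +
      c * ((star v ⬝ᵥ T *ᵥ v) * (star v ⬝ᵥ T *ᵥ v)).re ≤
      al * ((star v ⬝ᵥ η *ᵥ v) * (star v ⬝ᵥ H *ᵥ v)).re)
    {X : Matrix n n ℂ} (hX : X.PosSemidef) :
    be * (∑ k, ∑ l, X k l * (X * N k l).trace).re +
      c / 2 * ((X * T).trace * (X * T).trace + (X * T * X * T).trace).re ≤
      al / 2 * ((X * η).trace * (X * H).trace + (X * η * X * H).trace).re := by
  have h := royden_mat (R := fun k l i j => (be : ℂ) * N k l j i + (c : ℂ) * sy T T k l i j +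
      ((-al : ℝ) : ℂ) * sy η H k l i j)
    (fun k l i j => by rw [h13 k l i j]; simp only [sy]; ring)
    (fun k l i j => by rw [h24 k l i j]; simp only [sy]; ring)
    (fun v => by
      rw [q4_lin (fun k l i j => N k l j i), q4_fam, q4_sy, q4_sy]
      simp only [Complex.add_re, Complex.re_ofReal_mul]
      linarith [hD v]) hX
  rw [q2_lin (fun k l i j => N k l j i), q2_fam, q2_sy, q2_sy] at h
  simp only [Complex.add_re, Complex.re_ofReal_mul, Complex.div_ofNat_re] at h ⊢
  linarith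

theorem dot_im {A : Matrix n n ℂ} (hA : A.IsHermitian) (v : n → ℂ) :
    (star v ⬝ᵥ A *ᵥ v).im = 0 := by
  have h : star (star v ⬝ᵥ A *ᵥ v) = star v ⬝ᵥ A *ᵥ v := by
    rw [← star_dotProduct_star, star_star, star_mulVec, hA.eq, ← dotProduct_mulVec]
  have := congrArg Complex.im h
  simp only [Complex.star_def, Complex.conj_im] at this
  linarith

theorem tr_im {A B : Matrix n n ℂ} (hA : A.IsHermitian) (hB : B.IsHermitian) :
    (A * B).trace.im = 0 := by
  have h : star (A * B).trace = (A * B).trace := by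
    rw [← trace_conjTranspose, conjTranspose_mul, hA.eq, hB.eq, trace_mul_comm]
  have := congrArg Complex.im h
  simp only [Complex.star_def, Complex.conj_im] at this
  linarith

theorem tr4_nonneg {T X : Matrix n n ℂ} (hT : T.IsHermitian) (hX : X.PosSemidef) :
    0 ≤ (X * T * X * T).trace.re := by
  classical
  have h := tr_mul_nonneg hX (hX.conjTranspose_mul_mul_same T)
  rw [hT.eq, ← Matrix.mul_assoc, ← Matrix.mul_assoc] at h
  exact (Complex.le_def.1 h).1

/-- The twisted inequality of Royden. -/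
theorem roy {N : n → n → Matrix n n ℂ} (h13 : ∀ k l a b, N k l b a = N a l b k)
    (h24 : ∀ k l a b, N k l b a = N k b l a) {η H T : Matrix n n ℂ} (hη : η.IsHermitian)
    (hT : T.IsHermitian) {al be c : ℝ} (hc : 0 ≤ c)
    (hD : ∀ v : n → ℂ, be * (∑ k, ∑ l, v k * star (v l) * (star v ⬝ᵥ (N k l) *ᵥ v)).re +
      c * (star v ⬝ᵥ T *ᵥ v).re ^ 2 ≤ al * ((star v ⬝ᵥ η *ᵥ v).re * (star v ⬝ᵥ H *ᵥ v).re))
    {X : Matrix n n ℂ} (hX : X.PosSemidef) :
    be * (∑ k, ∑ l, X k l * (X * N k l).trace).re + c / 2 * (X * T).trace.re ^ 2 ≤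
      al / 2 * ((X * η).trace.re * (X * H).trace.re + (X * H * X * η).trace.re) := by
  have h := roy_c h13 h24 (η := η) (H := H) (T := T) (al := al) (be := be) (c := c)
    (fun v => by
      simp only [Complex.mul_re, dot_im hη, dot_im hT, zero_mul, sub_zero]
      rw [← sq]
      exact hD v) hX
  have e4 : (X * η * X * H).trace = (X * H * X * η).trace := by
    rw [Matrix.mul_assoc (X * η), trace_mul_comm, ← Matrix.mul_assoc]
  simp only [Complex.add_re, Complex.mul_re, tr_im hX.1 hη, tr_im hX.1 hT, zero_mul, sub_zero,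
    e4] at h
  nlinarith [mul_nonneg hc (tr4_nonneg hT hX)]

end Pool.Agent.Lib.K39
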